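import Mathlib
import Pool.Agent.W5h37.QM

/-!
# Rational solutions of the functional equation of quantum multiplication

Let `P` be a set of primes. Every sequence of rational functions with support `S(P)` satisfying
`f_{mn}(q) = f_m(q) f_n(q^m)` is a quotient of two polynomial solutions with support `S(P)` if and
only if `P` has at most one element. If `P` has two elements `p ≠ r`, the solution
`(q^n - 2) / (q - 2)` is not such a quotient, because all zeros of polynomial solutions lie in the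
closed unit disc: with `L(F)` the sum of `max (log |z|) 0` over the zeros `z` of `F`, the relation
`F_p(q) F_r(q^p) = F_r(q) F_p(q^r)` gives `log p * φ(L(F_r)) = log r * φ(L(F_p))` for every
`ℚ`-linear map `φ : ℝ → ℚ`.
-/

set_option autoImplicit false

namespace Pool.Agent.Results.MP_bcdf42_nt.OnlyOnePrime

open Polynomial

/-- `S(P)`: the multiplicative semigroup of positive integers generated by `P`, with `1`. -/
def S (P : Set ℕ) : Submonoid ℕ := Submonoid.closure P

/-- the rational function `f(q^m)` -/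
noncomputable def sub (m : ℕ) (f : RatFunc ℂ) : RatFunc ℂ :=
  algebraMap ℂ[X] (RatFunc ℂ) (f.num.comp (X ^ m)) /
    algebraMap ℂ[X] (RatFunc ℂ) (f.denom.comp (X ^ m))

/-- `f` is a sequence of rational functions with support `S(P)` which satisfies the functional
equation (the value at the index `0` plays no role). -/
def RationalSolution (P : Set ℕ) (f : ℕ → RatFunc ℂ) : Prop :=
  (∀ n : ℕ, 0 < n → (f n ≠ 0 ↔ n ∈ S P)) ∧
  ∀ m n : ℕ, 0 < m → 0 < n → f (m * n) = f m * sub m (f n)

/-- `F` belongs to `Γ(P)`: a sequence of polynomials with support `S(P)` which satisfies the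
functional equation (the value at the index `0` plays no role). -/
def PolynomialSolution (P : Set ℕ) (F : ℕ → ℂ[X]) : Prop :=
  (∀ n : ℕ, 0 < n → (F n ≠ 0 ↔ n ∈ S P)) ∧
  ∀ m n : ℕ, 0 < m → 0 < n → F (m * n) = F m * (F n).comp (X ^ m)

/-- `f` belongs to `K(Γ(P))`: it is the quotient of two elements of `Γ(P)`, on `S(P)`, and zero at
the other positive integers. -/
def IsQuotient (P : Set ℕ) (f : ℕ → RatFunc ℂ) : Prop :=
  ∃ F G : ℕ → ℂ[X], PolynomialSolution P F ∧ PolynomialSolution P G ∧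
    (∀ n ∈ S P, f n = algebraMap ℂ[X] (RatFunc ℂ) (F n) / algebraMap ℂ[X] (RatFunc ℂ) (G n)) ∧
    ∀ n : ℕ, 0 < n → n ∉ S P → f n = 0

theorem comp_pow_ne {F : ℂ[X]} (hF : F ≠ 0) {k : ℕ} (hk : 0 < k) : F.comp (X ^ k) ≠ 0 := by
  intro h0
  rw [comp_eq_zero_iff] at h0
  rcases h0 with h0 | ⟨-, h0⟩
  · exact hF h0
  · have h1 : (X ^ k : ℂ[X]).natDegree = 0 := by rw [h0]; exact natDegree_C _
    rw [natDegree_X_pow] at h1
    omega

theorem am_ne {F : ℂ[X]} (hF : F ≠ 0) : algebraMap ℂ[X] (RatFunc ℂ) F ≠ 0 := by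
  rw [Ne, map_eq_zero_iff _ (IsFractionRing.injective ℂ[X] (RatFunc ℂ))]
  exact hF

theorem sub_div {m : ℕ} (hm : 0 < m) (a : ℂ[X]) {b : ℂ[X]} (hb : b ≠ 0) :
    sub m (algebraMap ℂ[X] (RatFunc ℂ) a / algebraMap ℂ[X] (RatFunc ℂ) b) =
      algebraMap ℂ[X] (RatFunc ℂ) (a.comp (X ^ m)) /
        algebraMap ℂ[X] (RatFunc ℂ) (b.comp (X ^ m)) := by
  set f : RatFunc ℂ := algebraMap ℂ[X] (RatFunc ℂ) a / algebraMap ℂ[X] (RatFunc ℂ) b with hf
  have h1 : f.num * b = a * f.denom := by
    apply IsFractionRing.injective ℂ[X] (RatFunc ℂ)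
    rw [map_mul, map_mul]
    have h2 := RatFunc.num_div_denom f
    have h3 : algebraMap ℂ[X] (RatFunc ℂ) f.denom ≠ 0 := am_ne f.denom_ne_zero
    have h4 := am_ne hb
    rw [div_eq_iff h3] at h2
    have h5 : f * algebraMap ℂ[X] (RatFunc ℂ) b = algebraMap ℂ[X] (RatFunc ℂ) a := by
      rw [hf, div_mul_cancel₀ _ h4]
    rw [h2, mul_right_comm, h5]
  unfold sub
  rw [div_eq_div_iff (am_ne (comp_pow_ne f.denom_ne_zero hm)) (am_ne (comp_pow_ne hb hm)),
    ← map_mul, ← map_mul, ← mul_comp, ← mul_comp, h1]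

theorem sub_zero' (m : ℕ) : sub m 0 = 0 := by
  unfold sub
  rw [RatFunc.num_zero, zero_comp, map_zero, zero_div]

theorem sub_mul {m : ℕ} (hm : 0 < m) (f g : RatFunc ℂ) : sub m (f * g) = sub m f * sub m g := by
  have hf := RatFunc.num_div_denom f
  have hg := RatFunc.num_div_denom g
  have h1 : f * g = algebraMap ℂ[X] (RatFunc ℂ) (f.num * g.num) /
      algebraMap ℂ[X] (RatFunc ℂ) (f.denom * g.denom) := by
    conv_lhs => rw [← hf, ← hg]
    rw [map_mul, map_mul, div_mul_div_comm]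
  rw [h1, sub_div hm _ (mul_ne_zero f.denom_ne_zero g.denom_ne_zero), mul_comp, mul_comp, map_mul,
    map_mul, ← div_mul_div_comm]
  rfl

section semigroup

variable {P : Set ℕ}

theorem pos_of_mem (hP : ∀ p ∈ P, p.Prime) {n : ℕ} (hn : n ∈ S P) : 0 < n := by
  refine Submonoid.closure_induction (motive := fun n _ => 0 < n) ?_ ?_ ?_ hn
  · intro p hp
    exact (hP p hp).pos
  · exact Nat.one_pos
  · intro a b _ _ ha hb
    exact Nat.mul_pos ha hb

theorem prime_of_mem (hP : ∀ p ∈ P, p.Prime) {n : ℕ} (hn : n ∈ S P) :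
    ∀ q : ℕ, q.Prime → q ∣ n → q ∈ P := by
  refine Submonoid.closure_induction (motive := fun n _ => ∀ q : ℕ, q.Prime → q ∣ n → q ∈ P)
    ?_ ?_ ?_ hn
  · intro p hp q hq hqp
    rwa [(Nat.prime_dvd_prime_iff_eq hq (hP p hp)).1 hqp]
  · intro q hq h1
    exact absurd (Nat.eq_one_of_dvd_one h1) hq.one_lt.ne'
  · intro a b _ _ ha hb q hq h
    rcases (hq.dvd_mul).1 h with h | h
    · exact ha q hq h
    · exact hb q hq h

theorem mem_of_prime {n : ℕ} (hn : 0 < n) (h : ∀ q : ℕ, q.Prime → q ∣ n → q ∈ P) : n ∈ S P := by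
  rw [← Nat.prod_primeFactorsList hn.ne']
  refine Submonoid.list_prod_mem _ fun q hq => ?_
  exact Submonoid.subset_closure (h q (Nat.prime_of_mem_primeFactorsList hq)
    (Nat.dvd_of_mem_primeFactorsList hq))

theorem mul_mem_iff (hP : ∀ p ∈ P, p.Prime) {m n : ℕ} (hm : 0 < m) (hn : 0 < n) :
    m * n ∈ S P ↔ m ∈ S P ∧ n ∈ S P := by
  constructor
  · intro h
    have h1 := prime_of_mem hP h
    exact ⟨mem_of_prime hm fun q hq hqm => h1 q hq (hqm.mul_right n),
      mem_of_prime hn fun q hq hqn => h1 q hq (hqn.mul_left m)⟩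
  · rintro ⟨h1, h2⟩
    exact mul_mem h1 h2

end semigroup

/-! ### the counterexample -/

open Classical in
/-- `(q^n - 2) / (q - 2)` on `S(P)` -/
noncomputable def ex (P : Set ℕ) (n : ℕ) : RatFunc ℂ :=
  if n ∈ S P then algebraMap ℂ[X] (RatFunc ℂ) (X ^ n - C 2) /
    algebraMap ℂ[X] (RatFunc ℂ) (X ^ 1 - C 2) else 0

theorem ex_solution {P : Set ℕ} (hP : ∀ p ∈ P, p.Prime) : RationalSolution P (ex P) := by
  have hne : ∀ n : ℕ, 0 < n → (X ^ n - C 2 : ℂ[X]) ≠ 0 := fun n hn => X_pow_sub_C_ne_zero hn 2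
  constructor
  · intro n hn
    unfold ex
    split_ifs with h
    · exact ⟨fun _ => h, fun _ => div_ne_zero (am_ne (hne n hn)) (am_ne (hne 1 one_pos))⟩
    · exact ⟨fun h0 => absurd rfl h0, fun h1 => absurd h1 h⟩
  · intro m n hm hn
    by_cases h : m * n ∈ S P
    · obtain ⟨h1, h2⟩ := (mul_mem_iff hP hm hn).1 h
      unfold ex
      rw [if_pos h, if_pos h1, if_pos h2, sub_div hm _ (hne 1 one_pos)]
      have e1 : (X ^ n - C 2 : ℂ[X]).comp (X ^ m) = X ^ (m * n) - C 2 := by
        rw [sub_comp, pow_comp, X_comp, C_comp, ← pow_mul]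
      have e2 : (X ^ 1 - C 2 : ℂ[X]).comp (X ^ m) = X ^ m - C 2 := by
        rw [sub_comp, pow_comp, X_comp, C_comp, pow_one]
      rw [e1, e2]
      have h3 := am_ne (hne m hm)
      have h4 := am_ne (hne 1 one_pos)
      field_simp
    · have h0 : ex P (m * n) = 0 := if_neg h
      rw [h0]
      rw [mul_mem_iff hP hm hn, not_and_or] at h
      rcases h with h | h
      · have : ex P m = 0 := if_neg h
        rw [this, zero_mul]
      · have : ex P n = 0 := if_neg h
        rw [this, sub_zero', mul_zero]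

theorem two_primes {P : Set ℕ} (hP : ∀ p ∈ P, p.Prime) {p r : ℕ} (hp : p ∈ P) (hr : r ∈ P)
    (hpr : p ≠ r) : ¬ IsQuotient P (ex P) := by
  rintro ⟨F, G, hF, hG, h, -⟩
  have hpS : p ∈ S P := Submonoid.subset_closure hp
  have hrS : r ∈ S P := Submonoid.subset_closure hr
  have pp := hP p hp
  have pr := hP r hr
  have hGp : G p ≠ 0 := (hG.1 p pp.pos).2 hpS
  have hGr : G r ≠ 0 := (hG.1 r pr.pos).2 hrS
  have h1 := h p hpS
  unfold ex at h1
  rw [if_pos hpS, div_eq_div_iff (am_ne (X_pow_sub_C_ne_zero one_pos 2)) (am_ne hGp), ← map_mul,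
    ← map_mul] at h1
  have h2 := IsFractionRing.injective ℂ[X] (RatFunc ℂ) h1
  have h3 := congrArg (eval 2) h2
  simp only [eval_mul, eval_sub, eval_pow, eval_X, eval_C, pow_one, sub_self, mul_zero] at h3
  have h4 : (2 : ℂ) ^ p - 2 ≠ 0 := by
    intro h5
    have h6 : (2 : ℂ) ^ p = ((2 ^ p : ℕ) : ℂ) := by push_cast; rfl
    rw [sub_eq_zero, h6] at h5
    have h7 : (2 ^ p : ℕ) = 2 := by exact_mod_cast h5
    have h8 : 2 ^ 1 < 2 ^ p := Nat.pow_lt_pow_right (by norm_num) pp.one_lt
    omega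
  have h5 : eval 2 (G p) = 0 := (mul_eq_zero.1 h3).resolve_left h4
  have h6 : (2 : ℂ) ∈ (G p).roots := (mem_roots hGp).2 h5
  have h7 : G p * (G r).comp (X ^ p) = G r * (G p).comp (X ^ r) := by
    rw [← hG.2 p r pp.pos pr.pos, ← hG.2 r p pr.pos pp.pos, mul_comm p r]
  have h8 := Pool.Agent.W5h37.QM.no_zeros pp pr hpr hGp hGr h7 2 h6
  norm_num at h8

/-! ### at most one prime -/

theorem f_one {P : Set ℕ} {f : ℕ → RatFunc ℂ} (hf : RationalSolution P f) : f 1 = 1 := by
  have h0 : f 1 ≠ 0 := (hf.1 1 one_pos).2 (one_mem _)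
  have h1 := hf.2 1 1 one_pos one_pos
  have h2 : sub 1 (f 1) = f 1 := by
    unfold sub
    rw [pow_one, comp_X, comp_X, RatFunc.num_div_denom]
  rw [h2, mul_one] at h1
  exact mul_left_cancel₀ h0 (by rw [← h1, mul_one])

/-- `u(q) u(q^p) ⋯ u(q^(p^(k-1)))` -/
noncomputable def pr (p : ℕ) (u : ℂ[X]) (k : ℕ) : ℂ[X] := ∏ i ∈ Finset.range k, u.comp (X ^ p ^ i)

theorem pr_ne {p : ℕ} (hp : 0 < p) {u : ℂ[X]} (hu : u ≠ 0) (k : ℕ) : pr p u k ≠ 0 :=
  Finset.prod_ne_zero_iff.2 fun _ _ => comp_pow_ne hu (pow_pos hp _)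

theorem pr_add (p : ℕ) (u : ℂ[X]) (j k : ℕ) :
    pr p u (j + k) = pr p u j * (pr p u k).comp (X ^ p ^ j) := by
  unfold pr
  rw [Finset.prod_range_add, prod_comp]
  congr 1
  apply Finset.prod_congr rfl
  intro i _
  rw [comp_assoc, pow_comp, X_comp, ← pow_mul, ← pow_add]

open Classical in
/-- the solution with support `{p ^ k}` and the value `u` at `p` -/
noncomputable def sol (P : Set ℕ) (p : ℕ) (u : ℂ[X]) (n : ℕ) : ℂ[X] :=
  if n ∈ S P then pr p u (n.factorization p) else 0

theorem sol_solution {P : Set ℕ} (hP : ∀ p ∈ P, p.Prime) {p : ℕ} (hp : p ∈ P)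
    (h1 : ∀ r ∈ P, r = p) {u : ℂ[X]} (hu : u ≠ 0) : PolynomialSolution P (sol P p u) := by
  have pp := hP p hp
  constructor
  · intro n hn
    unfold sol
    split_ifs with h
    · exact ⟨fun _ => h, fun _ => pr_ne pp.pos hu _⟩
    · exact ⟨fun h0 => absurd rfl h0, fun h1 => absurd h1 h⟩
  · intro m n hm hn
    by_cases h : m * n ∈ S P
    · obtain ⟨h2, h3⟩ := (mul_mem_iff hP hm hn).1 h
      unfold sol
      rw [if_pos h, if_pos h2, if_pos h3, Nat.factorization_mul hm.ne' hn.ne', Finsupp.add_apply,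
        pr_add]
      have h4 : p ^ m.factorization p = m := by
        have h5 := prime_of_mem hP h2
        exact (Nat.eq_prime_pow_of_unique_prime_dvd hm.ne' fun {d} hd hdm =>
          h1 d (h5 d hd hdm)) ▸ by simp [pp.factorization_self]
      rw [h4]
    · have h0 : sol P p u (m * n) = 0 := if_neg h
      rw [h0]
      rw [mul_mem_iff hP hm hn, not_and_or] at h
      rcases h with h | h
      · have : sol P p u m = 0 := if_neg h
        rw [this, zero_mul]
      · have : sol P p u n = 0 := if_neg h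
        rw [this, zero_comp, mul_zero]

theorem one_prime {P : Set ℕ} (hP : ∀ p ∈ P, p.Prime) {p : ℕ} (hp : p ∈ P)
    (h1 : ∀ r ∈ P, r = p) {f : ℕ → RatFunc ℂ} (hf : RationalSolution P f) : IsQuotient P f := by
  have pp := hP p hp
  have hfp : f p ≠ 0 := (hf.1 p pp.pos).2 (Submonoid.subset_closure hp)
  have hnum : (f p).num ≠ 0 := RatFunc.num_ne_zero hfp
  refine ⟨sol P p (f p).num, sol P p (f p).denom, sol_solution hP hp h1 hnum,
    sol_solution hP hp h1 (f p).denom_ne_zero, ?_, fun n hn hns => ?_⟩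
  · have key : ∀ k : ℕ, f (p ^ k) = algebraMap ℂ[X] (RatFunc ℂ) (pr p (f p).num k) /
        algebraMap ℂ[X] (RatFunc ℂ) (pr p (f p).denom k) := by
      intro k
      induction k with
      | zero => simp [pr, f_one hf]
      | succ k ih =>
        rw [pow_succ, hf.2 (p ^ k) p (pow_pos pp.pos k) pp.pos, ih]
        unfold pr
        rw [Finset.prod_range_succ, Finset.prod_range_succ, map_mul, map_mul, ← div_mul_div_comm]
        rfl
    intro n hn
    have h4 : p ^ n.factorization p = n := by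
      have h5 := prime_of_mem hP hn
      exact (Nat.eq_prime_pow_of_unique_prime_dvd (pos_of_mem hP hn).ne' fun {d} hd hdm =>
        h1 d (h5 d hd hdm)) ▸ by simp [pp.factorization_self]
    unfold sol
    rw [if_pos hn, if_pos hn, ← key, h4]
  · by_contra h
    exact hns ((hf.1 n hn).1 h)

theorem no_prime {f : ℕ → RatFunc ℂ} (hf : RationalSolution ∅ f) : IsQuotient ∅ f := by
  have hS : ∀ n, n ∈ S ∅ ↔ n = 1 := by
    intro n
    unfold S
    rw [Submonoid.closure_empty, Submonoid.mem_bot]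
  have hsol : PolynomialSolution ∅ (fun n => if n = 1 then 1 else 0) := by
    constructor
    · intro n _
      rw [hS]
      simp only
      split_ifs with h <;> simp [h]
    · intro m n hm hn
      simp only
      by_cases h : m * n = 1
      · have h1 : m = 1 := Nat.eq_one_of_mul_eq_one_right h
        have h2 : n = 1 := Nat.eq_one_of_mul_eq_one_left h
        simp [h1, h2]
      · rw [if_neg h]
        by_cases h1 : m = 1
        · have h2 : n ≠ 1 := fun h2 => h (by rw [h1, h2])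
          rw [if_neg h2, zero_comp, mul_zero]
        · rw [if_neg h1, zero_mul]
  refine ⟨_, _, hsol, hsol, fun n hn => ?_, fun n hn hns => ?_⟩
  · rw [hS] at hn
    subst hn
    simp [f_one hf]
  · by_contra h
    exact hns ((hf.1 n hn).1 h)

/-- **Rational solutions of the functional equation.** Let `P` be a set of primes. Every sequence
of rational functions with support `S(P)` which satisfies `f_{mn}(q) = f_m(q) f_n(q^m)` lies in
`K(Γ(P))` if and only if `P` has at most one element. -/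
theorem result (P : Set ℕ) (hP : ∀ p ∈ P, p.Prime) :
    (∀ f : ℕ → RatFunc ℂ, RationalSolution P f → IsQuotient P f) ↔ P.Subsingleton := by
  constructor
  · intro h p hp r hr
    by_contra hpr
    exact two_primes hP hp hr hpr (h _ (ex_solution hP))
  · intro h f hf
    rcases P.eq_empty_or_nonempty with rfl | ⟨p, hp⟩
    · exact no_prime hf
    · exact one_prime hP hp (fun r hr => h hr hp) hf

end Pool.Agent.Results.MP_bcdf42_nt.OnlyOnePrime
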